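import Pool.Agent.Knieper.Main

/-!
# Knieper's question: quadratic growth of the classes of zero-curvature closed geodesics

Full affirmative answer to Q1 of MP_8d04fc_gt; the bound holds without the hypothesis of
subexponential growth.  The definitions are in `Pool.Agent.Knieper.SurfDefs`.
-/

open scoped MatrixGroups

/-- Let `S = Γ \ ℍ` be a closed oriented surface of genus at least two and let `m` be a smooth
Riemannian metric on `S` (a `Γ`-invariant metric on `ℍ`) with nonpositive Gaussian curvature.
Then there is a constant `C > 0` such that for all `T ≥ 1` at most `C T ^ 2` free homotopy classes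
contain a closed geodesic of length at most `T` along which the curvature vanishes. -/
theorem Pool.Agent.Results.MP_8d04fc_gt.QuadraticBound.result
    (Γ : Subgroup SL(2, ℝ)) (hΓ : Knieper.IsSurfaceGroup Γ) (m : Knieper.Metric)
    (hinv : m.Invariant Γ) (hcurv : ∀ z : ℂ, 0 < z.im → m.curv z ≤ 0) :
    ∃ C : ℝ, 0 < C ∧ ∀ T : ℝ, 1 ≤ T →
      (m.flatClasses Γ T).Finite ∧ ((m.flatClasses Γ T).ncard : ℝ) ≤ C * T ^ 2 :=
  Knieper.main Γ hΓ m hinv hcurv
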